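import Pool.Agent.Y310.PR.Main

set_option autoImplicit false

namespace Pool.Agent.Results.MP_c081e6_an.EveryHighDimension

open Filter Topology
open Pool.Agent.Helper749.PReg Pool.Agent.Y310.PR

/-- `gammaReg n p` is the degree of regularity `γ(n,p)` of `p`-harmonic functions in `ℝⁿ`.
In EVERY dimension `n ≥ 8` and for all `1 < p < 2` it is at most the explicit number
`κ(⌊n/2⌋,p)`, where
`κ(m,p) = 8(m+p-2) / (2m-p+√((2m-p)² - 16(3-2p)(m+p-2)))` lies between `2` (excluded) and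
`2 + (2-p)/(m-3)`. So in no dimension `n ≥ 8` does `γ(n,p)` tend to infinity as `p → 1⁺`.
Moreover `γ(n,p)` does not increase with the dimension. -/
theorem result :
    (∀ n : ℕ, 8 ≤ n → ∀ p : ℝ, 1 < p → p < 2 →
      gammaReg n p ≤ ENNReal.ofReal (kappa (n / 2) p)) ∧
    (∀ m : ℕ, 4 ≤ m → ∀ p : ℝ, 1 < p → p < 2 →
      2 < kappa m p ∧ kappa m p ≤ 2 + (2 - p) / ((m : ℝ) - 3)) ∧
    (∀ n : ℕ, 8 ≤ n → ¬ Tendsto (fun p => gammaReg n p) (𝓝[>] 1) (𝓝 ⊤)) ∧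
    (∀ n m : ℕ, n ≤ m → ∀ p : ℝ, 1 < p → gammaReg m p ≤ gammaReg n p) :=
  ⟨fun _ hn _ h1 h2 => gamma_le_kappa hn h1 h2,
    fun _ hm _ h1 h2 => ⟨two_lt_kappa hm h1 h2, kappa_bound hm h1 h2⟩,
    fun _ hn => not_tendsto hn,
    fun _ _ h _ h1 => gamma_anti h1 h⟩

end Pool.Agent.Results.MP_c081e6_an.EveryHighDimension
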